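import Pool.Agent.Helper88.CR.GoalsA
import Pool.Agent.Helper31.LG.SM

/-! # F0: the sum of `1/p` over the primes of `(√z, z]` is bounded -/

set_option autoImplicit false

open Finset Filter Topology

open scoped Classical ArithmeticFunction

namespace Pool.Agent.Helper11.CR

open Pool.Agent.Helper88.CR

theorem f0 : StmtF0 := by
  obtain ⟨C, hC, hM⟩ := Pool.Agent.Helper31.LG.mertens
  refine ⟨2 * C, by positivity, fun z hz => ?_⟩
  have hzr : (2 : ℝ) ≤ z := by exact_mod_cast hz
  have hlz : 0 < Real.log z := Real.log_pos (by linarith)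
  have h1 : ∀ p ∈ (Ioc (Nat.sqrt z) z).filter Nat.Prime,
      1 / (p : ℝ) ≤ (2 / Real.log z) * (Real.log p / p) := by
    intro p hp
    rw [Finset.mem_filter, Finset.mem_Ioc] at hp
    obtain ⟨⟨h2, h3⟩, h4⟩ := hp
    have hp0 : (0 : ℝ) < p := by exact_mod_cast h4.pos
    have h5 : z < p ^ 2 := by
      rw [Nat.sqrt_lt'] at h2
      exact h2
    have h6 : Real.log z ≤ 2 * Real.log p := by
      have : (z : ℝ) ≤ (p : ℝ) ^ 2 := by exact_mod_cast h5.le
      have h7 := Real.log_le_log (by linarith) this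
      rw [Real.log_pow] at h7
      exact_mod_cast h7
    rw [div_mul_div_comm, div_le_div_iff₀ hp0 (mul_pos hlz hp0)]
    nlinarith
  calc ∑ p ∈ (Ioc (Nat.sqrt z) z).filter Nat.Prime, 1 / (p : ℝ)
      ≤ ∑ p ∈ (Ioc (Nat.sqrt z) z).filter Nat.Prime, (2 / Real.log z) * (Real.log p / p) :=
        Finset.sum_le_sum h1
    _ = (2 / Real.log z) * ∑ p ∈ (Ioc (Nat.sqrt z) z).filter Nat.Prime, Real.log p / p := by
        rw [Finset.mul_sum]
    _ ≤ (2 / Real.log z) * ∑ p ∈ (Icc 1 z).filter Nat.Prime, Real.log p / p := by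
        refine mul_le_mul_of_nonneg_left ?_ (by positivity)
        refine Finset.sum_le_sum_of_subset_of_nonneg ?_ ?_
        · intro p hp
          rw [Finset.mem_filter, Finset.mem_Ioc] at hp
          rw [Finset.mem_filter, Finset.mem_Icc]
          exact ⟨⟨hp.2.one_lt.le, hp.1.2⟩, hp.2⟩
        · intro p hp _
          rw [Finset.mem_filter, Finset.mem_Icc] at hp
          have : (1 : ℝ) ≤ p := by exact_mod_cast hp.1.1
          exact div_nonneg (Real.log_nonneg this) (by linarith)
    _ ≤ (2 / Real.log z) * (C * Real.log z) :=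
        mul_le_mul_of_nonneg_left (hM z hz) (by positivity)
    _ = 2 * C := by field_simp

end Pool.Agent.Helper11.CR
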