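import Pool.Agent.Helper48.CR.Goals

/-! Packet NUM2 of MP_69be96_nt. -/

set_option autoImplicit false

open Finset Filter Topology MeasureTheory ProbabilityTheory
open Pool.Agent.Helper48.CR

namespace Pool.Agent.Helper11.CR

theorem num2 (_h1 : FB1G) (h2 : NUM1G) (h3 : MERTG) : NUM2G := by
  intro ε hε hε1
  obtain ⟨K0, hK0⟩ := h2 (ε / 24) (by positivity)
  obtain ⟨K1, hK1⟩ := exists_nat_ge (12 / ε)
  refine ⟨max (max K0 4) K1, ?_⟩
  intro K hK Z hZ c hc hcg
  have hKK0 : K0 ≤ K := le_trans (le_trans (le_max_left _ _) (le_max_left _ _)) hK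
  have hK4 : 4 ≤ K := le_trans (le_trans (le_max_right _ _) (le_max_left _ _)) hK
  have hKK1 : (K1 : ℝ) ≤ K := by exact_mod_cast le_trans (le_max_right _ _) hK
  have hKε : 12 ≤ K * ε := by
    rw [div_le_iff₀ hε] at hK1
    nlinarith
  have hKpos : (0 : ℝ) < K := by
    have : (4 : ℝ) ≤ K := by exact_mod_cast hK4
    linarith
  obtain ⟨g, hg⟩ : ∃ g : ℝ, g = Real.exp Real.eulerMascheroniConstant := ⟨_, rfl⟩
  have hg0 : 0 < g := hg ▸ Real.exp_pos _
  have hm := (h3.2 Z hZ K hK4).2.2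
  have hmev : ∀ᶠ r : ℕ in atTop, g / (2 * K) ≤ ∏ p ∈ pr r (Z ((r + 1) ^ K)), (1 - 1 / (p : ℝ)) := by
    have hlt : g / (2 * K) < Real.exp Real.eulerMascheroniConstant / K := by
      rw [← hg]
      apply div_lt_div_of_pos_left hg0 hKpos
      linarith
    filter_upwards [hm.eventually_const_lt hlt] with r hr
    exact hr.le
  have hL : Tendsto (fun r : ℕ => Real.log (r : ℝ)) atTop atTop :=
    Real.tendsto_log_atTop.comp tendsto_natCast_atTop_atTop
  have hR : Tendsto (fun r : ℕ => (r : ℝ)) atTop atTop := tendsto_natCast_atTop_atTop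
  filter_upwards [hK0 K hKK0 Z hZ, hmev, hL.eventually_ge_atTop ((1 + ε / 24) * (c * K ^ 2) / 2),
    hL.eventually_ge_atTop 1, hR.eventually_ge_atTop (4 * K / g)] with r hr1 hr2 hr3 hr4 hr5
  obtain ⟨L, hLdef⟩ : ∃ L : ℝ, L = Real.log r := ⟨_, rfl⟩
  rw [← hLdef] at hr1 hr3 hr4
  have hrpos : (0 : ℝ) < r := lt_of_lt_of_le (by positivity) hr5
  have hexp : Real.exp L = r := by rw [hLdef, Real.exp_log hrpos]
  have hrp : ∀ x : ℝ, (r : ℝ) ^ x = Real.exp (L * x) := by
    intro x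
    rw [Real.rpow_def_of_pos hrpos, hLdef]
  -- the number of points to be covered
  have hj : ((Ms K c (ε / 24) r : ℕ) : ℝ) ≤ (1 + ε / 24) * (c * (K : ℝ) ^ 2 * L / 2) := by
    unfold Ms
    rw [hLdef]
    apply Nat.floor_le
    have : 0 ≤ Real.log (r : ℝ) := by rw [← hLdef]; linarith
    positivity
  have hj2 : ((Ms K c (ε / 24) r : ℕ) : ℝ) ≤ L ^ 2 := by
    refine hj.trans ?_
    have : (1 + ε / 24) * (c * (K : ℝ) ^ 2 * L / 2) = ((1 + ε / 24) * (c * K ^ 2) / 2) * L := by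
      ring
    rw [this, pow_two L]
    exact mul_le_mul_of_nonneg_right hr3 (by linarith)
  have hF := hr1 (pr r (Z (r ^ K))) (Finset.Subset.refl _) (by
    rw [Finset.sdiff_self, Finset.card_empty, Nat.cast_zero]
    have : (0 : ℝ) ≤ L := by linarith
    positivity) (Ms K c (ε / 24) r) hj2
  rw [← hg] at hF
  have hF' : Real.exp (-(L * ((1 + ε / 24) ^ 2 * (K * (c * g / 2))))) ≤
      FS (fu 1) (pr r (Z (r ^ K))) (Ms K c (ε / 24) r) := by
    refine le_trans (Real.exp_le_exp.2 ?_) hF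
    rw [neg_le_neg_iff]
    have h5 : (1 + ε / 24) * (g / K) * ((Ms K c (ε / 24) r : ℕ) : ℝ) ≤
        (1 + ε / 24) * (g / K) * ((1 + ε / 24) * (c * (K : ℝ) ^ 2 * L / 2)) :=
      mul_le_mul_of_nonneg_left hj (by positivity)
    refine h5.trans (le_of_eq ?_)
    field_simp
  -- exponents
  obtain ⟨A, hA⟩ : ∃ A : ℝ, A = c * g / 2 := ⟨_, rfl⟩
  have hA0 : 0 < A := by rw [hA]; positivity
  have hA1 : A < 1 := by
    rw [← hg] at hcg
    rw [hA]
    linarith
  have hexpo : K * (1 - A - ε / 2) + 1 ≤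
      ((1 - 2 * (ε / 32)) * K - 2) - (1 + ε / 24) ^ 2 * (K * A) := by
    have h6 : ε ^ 2 ≤ ε := by nlinarith
    have h7 : A * (ε / 12 + ε ^ 2 / 576) ≤ 1 * (ε / 12 + ε ^ 2 / 576) :=
      mul_le_mul_of_nonneg_right hA1.le (by positivity)
    have h8 : ε / 4 ≤ 7 * ε / 16 - A * (ε / 12 + ε ^ 2 / 576) := by
      linarith
    have h9 : K * (ε / 4) ≤ K * (7 * ε / 16 - A * (ε / 12 + ε ^ 2 / 576)) :=
      mul_le_mul_of_nonneg_left h8 hKpos.le
    have h10 : ((1 - 2 * (ε / 32)) * K - 2) - (1 + ε / 24) ^ 2 * (K * A) -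
        K * (1 - A - ε / 2) = K * (7 * ε / 16 - A * (ε / 12 + ε ^ 2 / 576)) - 2 := by
      ring
    linarith
  rw [← hg, hrp, hrp, ← hA]
  rw [← hA] at hF'
  have hP0 : 0 < g / (2 * K) := by positivity
  calc 2 * Real.exp (L * (K * (1 - A - ε / 2)))
      ≤ (g / (2 * K) * r) * Real.exp (L * (K * (1 - A - ε / 2))) := by
        apply mul_le_mul_of_nonneg_right _ (Real.exp_pos _).le
        rw [div_le_iff₀ hg0] at hr5
        rw [div_mul_eq_mul_div, le_div_iff₀ (by positivity)]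
        linarith
    _ = g / (2 * K) * Real.exp (L * (K * (1 - A - ε / 2) + 1)) := by
        rw [mul_add, Real.exp_add, mul_one, hexp]
        ring
    _ ≤ g / (2 * K) * Real.exp (L * (((1 - 2 * (ε / 32)) * K - 2) -
          (1 + ε / 24) ^ 2 * (K * A))) := by
        apply mul_le_mul_of_nonneg_left _ hP0.le
        apply Real.exp_le_exp.2
        exact mul_le_mul_of_nonneg_left hexpo (by linarith)
    _ = Real.exp (L * ((1 - 2 * (ε / 32)) * K - 2)) * (g / (2 * K) *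
          Real.exp (-(L * ((1 + ε / 24) ^ 2 * (K * A))))) := by
        rw [mul_sub L, Real.exp_sub, Real.exp_neg]
        field_simp
    _ ≤ Real.exp (L * ((1 - 2 * (ε / 32)) * K - 2)) *
        ((∏ p ∈ pr r (Z ((r + 1) ^ K)), (1 - 1 / (p : ℝ))) *
          FS (fu 1) (pr r (Z (r ^ K))) (Ms K c (ε / 24) r)) := by
        apply mul_le_mul_of_nonneg_left _ (Real.exp_pos _).le
        exact mul_le_mul hr2 hF' (Real.exp_pos _).le (hP0.le.trans hr2)

end Pool.Agent.Helper11.CR
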